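import Mathlib
import Pool.Agent.MP_097dd0_an.Mg.Main

/-! No point-finite covering of an infinite-dimensional real sequence space by closed balls. -/

set_option autoImplicit false

namespace Pool.Agent.Results.MP_097dd0_an.NoPointFinite

universe u

theorem not_finiteDimensional (Γ : Type u) [Infinite Γ] :
    ¬ FiniteDimensional ℝ (lp (fun _ : Γ => ℝ) 2) := by
  classical
  intro h
  have horth : Orthonormal ℝ
      (fun i : Γ => (lp.single 2 i (1 : ℝ) : lp (fun _ : Γ => ℝ) 2)) := by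
    rw [orthonormal_iff_ite]
    intro i j
    rw [lp.inner_single_left]
    by_cases hij : i = j
    · subst hij
      simp
    · simp [hij, lp.single_apply]
  have := horth.linearIndependent.finite
  exact not_finite Γ

theorem result (Γ : Type u) [Infinite Γ] (𝓕 : Set (Set (lp (fun _ : Γ => ℝ) 2)))
    (hball : ∀ B ∈ 𝓕, ∃ (x : lp (fun _ : Γ => ℝ) 2) (r : ℝ), 0 < r ∧ B = {y | ‖y - x‖ ≤ r})
    (hcover : ⋃₀ 𝓕 = Set.univ) :
    ∃ y : lp (fun _ : Γ => ℝ) 2, {B | B ∈ 𝓕 ∧ y ∈ B}.Infinite := by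
  by_contra hcon
  push Not at hcon
  choose x r hr hB using hball
  have hmem : ∀ (B : 𝓕) (y : lp (fun _ : Γ => ℝ) 2),
      y ∈ Metric.closedBall (x B.1 B.2) (r B.1 B.2) ↔ y ∈ B.1 := by
    intro B y
    rw [Metric.mem_closedBall, dist_eq_norm]
    conv_rhs => rw [hB B.1 B.2]
    rfl
  refine Pool.Agent.MP_097dd0_an.no_point_finite_cover (not_finiteDimensional Γ) (I := 𝓕)
    (fun B => x B.1 B.2) (fun B => r B.1 B.2) (fun B => hr B.1 B.2) (fun y => ?_) (fun y => ?_)
  · refine ((hcon y).preimage (f := ((↑) : 𝓕 → _)) Subtype.val_injective.injOn).subset ?_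
    intro B hy
    exact ⟨B.2, (hmem B y).1 hy⟩
  · have hy : y ∈ ⋃₀ 𝓕 := by rw [hcover]; trivial
    obtain ⟨B, hB1, hB2⟩ := hy
    exact ⟨⟨B, hB1⟩, (hmem ⟨B, hB1⟩ y).2 hB2⟩

end Pool.Agent.Results.MP_097dd0_an.NoPointFinite
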